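import Pool.Agent.BJ.Hard

/-!
# Bottleneck just-in-time sequencing is coNP-complete
-/

namespace Pool.Agent.Results.MP_cedc2d_lc.CoNPComplete

open Pool.Agent.Bx81 (InNP PolyTime)
open Pool.Agent.BJ

/-- `BJIT` is coNP-complete under polynomial-time many-one reductions, and the reductions can be
chosen to produce only instances `(d, B)` with `B = 1 - 1 / M`. Consequently `BJIT` is in `NP` if
and only if `NP` is closed under complement (`NP = coNP`). -/
theorem result :
    InNP BJITᶜ ∧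
    (∀ (Γ : Type) [Fintype Γ] (L : Set (List Γ)), InNP Lᶜ →
      ∃ f : List Γ → List (Option Bool), PolyTime f ∧
        (∀ x, ∃ (d : List ℕ) (M : ℕ), d ≠ [] ∧ (∀ a ∈ d, 0 < a) ∧ 2 ≤ M ∧
          f x = encode d (1 - 1 / (M : ℚ))) ∧
        ∀ x, x ∈ L ↔ f x ∈ BJIT) ∧
    (InNP BJIT ↔ ∀ (Γ : Type) [Fintype Γ] (L : Set (List Γ)), InNP L → InNP Lᶜ) := by
  refine ⟨coNP_bjit, fun Γ _ L hL => hard L hL, ?_, ?_⟩
  · intro hB Γ _ L hL
    exact compl_of_inNP hB L hL
  · intro h
    have := h _ _ coNP_bjit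
    rwa [compl_compl] at this

end Pool.Agent.Results.MP_cedc2d_lc.CoNPComplete
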